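import Pool.Agent.Helper54.CF.Sl
import Pool.Agent.Helper63.CF.Form
import Pool.Agent.Helper4.CF.Adj
import Pool.Agent.Helper34.CF.Norm
import Pool.Agent.Helper88.CF.CasP
import Pool.Agent.Helper56.CF.Gen
import Pool.Agent.Helper96.CF.Cas
import Pool.Agent.Helper2.CF.Pos
import Pool.Agent.Helper54.MT.CartanIn
import Pool.Agent.Helper54.MT.IntDiag
import Pool.Agent.Helper88.UN.LA
import Pool.Agent.Helper2.EL.Defs

/-!
Project CF (MP_b8862a_ag), block CF-7: the compact form theorem for matrices.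
-/

open Module LieModule LieAlgebra LieAlgebra.IsKilling

namespace CF

open MTP MTP.MF

section lie

variable {V : Type*} [AddCommGroup V] [Module ℂ V] [FiniteDimensional ℂ V]
  {L : Type*} [LieRing L] [LieAlgebra ℂ L] [FiniteDimensional ℂ L] [IsKilling ℂ L]
  (H : LieSubalgebra ℂ L) [H.IsCartanSubalgebra] [LieRingModule L V] [LieModule ℂ L V]

/-- The coroots have integral eigenvalues. -/
private lemma hint57 {I : Type*} [Fintype I] (B : WB (V := V) H I) (i : I) (α : H.root) :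
    ∃ a : ℤ, B.w i (coroot α.1) = (a : ℂ) := by
  obtain ⟨e, f, ht, he, hf⟩ := exists_triple α
  refine int_weight (h := toEnd ℂ L V ((coroot α.1 : H) : L)) (e := toEnd ℂ L V e) (f := toEnd ℂ L V f)
    ?_ ?_ ?_ (B.v.ne_zero i) (B.lie_v i (coroot α.1))
  · ext u
    have h1 := leibniz_lie ((coroot α.1 : H) : L) e u
    rw [ht.lie_h_e_nsmul] at h1
    simp only [LinearMap.sub_apply, Module.End.mul_apply, toEnd_apply_apply, LinearMap.smul_apply]
    rw [h1, nsmul_lie]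
    module
  · ext u
    have h1 := leibniz_lie ((coroot α.1 : H) : L) f u
    rw [ht.lie_h_f_nsmul] at h1
    simp only [LinearMap.sub_apply, Module.End.mul_apply, toEnd_apply_apply, LinearMap.smul_apply,
      LinearMap.neg_apply]
    rw [h1, neg_lie, nsmul_lie]
    module
  · ext u
    have h1 := leibniz_lie e f u
    rw [ht.lie_e_f] at h1
    simp only [LinearMap.sub_apply, Module.End.mul_apply, toEnd_apply_apply]
    rw [h1]
    abel

/-- An invariant positive definite Hermitian form. -/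
private theorem compact57 [Nontrivial V]
    (hirr : ∀ W : Submodule ℂ V, (∀ x : L, ∀ u ∈ W, ⁅x, u⁆ ∈ W) → W = ⊥ ∨ W = ⊤)
    (hfaith : ∀ x : L, (∀ u : V, ⁅x, u⁆ = 0) → x = 0) :
    ∃ (S : V →ₗ[ℂ] V →ₗ⋆[ℂ] ℂ) (θ : L → L), (∀ u v, S v u = starRingEnd ℂ (S u v)) ∧
      (∀ u, u ≠ 0 → ∃ r : ℝ, 0 < r ∧ S u u = (r : ℂ)) ∧ (∀ (x : L) (u v : V), S ⁅x, u⁆ v = S u ⁅θ x, v⁆) ∧
      ∀ h : H, (∀ c : ℂ, ∀ v : V, v ≠ 0 → ⁅(h : L), v⁆ = c • v → starRingEnd ℂ c = c) →
        ∀ u v : V, S ⁅(h : L), u⁆ v = S u ⁅(h : L), v⁆ := by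
  classical
  obtain ⟨n₀, ⟨B⟩⟩ := exists_WB (V := V) (H := H) hirr
  have hI : Nonempty (Fin n₀) := B.v.index_nonempty
  have hint := hint57 H B
  obtain ⟨b⟩ := (rootSystem H).nonempty_base
  have hex : ∀ i, ∃ c : ℤ, B.w i (rho2 b) = (c : ℂ) := by
    intro i
    choose a ha using hint i
    refine ⟨∑ α with b.IsPos α, a α, ?_⟩
    rw [rho2, map_sum, Int.cast_sum]
    exact Finset.sum_congr rfl fun α _ => ha α
  choose c hc using hex
  obtain ⟨t, ht⟩ := Finite.exists_max c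
  obtain ⟨es, fs, G⟩ := exists_gen b
  obtain ⟨S, F, h1⟩ := exists_HF hirr G (gen_top G) B hint hc ht
  obtain ⟨θ, T⟩ := exists_TH hfaith G (gen_top G) F
  have hex2 : ∀ α : H.root, ∃ e f : L, IsSl2Triple ((coroot α.1 : H) : L) e f ∧
    e ∈ rootSpace H α.1 ∧ f ∈ rootSpace H (-α.1) := exists_triple
  choose ea fa htr he hf using hex2
  refine ⟨S, θ, F.herm, ?_, T.adj, ?_⟩
  · intro u hu
    refine form_pos hirr hfaith B hint G F T hc ht h1 ?_ ea fa htr he hf ?_ hu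
    · intro α hα x hx hx0
      exact norm_pos hfaith B hint (lie_root_ne G) eig_fe G T hα hx hx0
    · intro k
      obtain ⟨a, ha⟩ := cas_scalar (b := b) hirr hfaith B hint ea fa htr he hf k
      obtain ⟨r, hr, hra, hr0⟩ := cas_pos hfaith B hint ea fa htr he hf k _ ha
      refine ⟨r, hr, ?_, ?_⟩
      · intro v hv
        rw [← hra]
        exact ha v hv
      · intro h2 α hα v hv
        exact hr0 h2 α (by simp [hα]) v hv
  · intro h hh
    -- the simple coroots are self-adjoint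
    have hco : ∀ α ∈ b.support, ∀ u v : V,
        S ⁅((coroot α.1 : H) : L), u⁆ v = S u ⁅((coroot α.1 : H) : L), v⁆ := by
      intro α hα u v
      have h2 : θ ((coroot α.1 : H) : L) = ((coroot α.1 : H) : L) := by
        rw [← (G.tr α hα).lie_e_f, T.lie, T.e α hα, T.f α hα]
      rw [T.adj, h2]
    -- orthogonality
    have hort : ∀ i j, S (B.v i) (B.v j) ≠ 0 → B.w i = B.w j := by
      intro i j hij
      have h3 : ∀ α ∈ b.support, B.w i (coroot α.1) = B.w j (coroot α.1) := by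
        intro α hα
        obtain ⟨a, ha⟩ := hint j α
        have h4 := hco α hα (B.v i) (B.v j)
        rw [B.lie_v, B.lie_v, ha, LinearMap.map_smul₂, LinearMap.map_smulₛₗ, smul_eq_mul,
          smul_eq_mul, map_intCast] at h4
        rw [ha]
        exact mul_right_cancel₀ hij h4
      ext x
      have h5 : x ∈ Submodule.span ℂ ((rootSystem H).coroot '' b.support) := by
        rw [b.span_coroot_support, RootPairing.corootSpan,
          RootPairing.IsRootSystem.span_coroot_eq_top]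
        trivial
      induction h5 using Submodule.span_induction with
      | mem u hu =>
        obtain ⟨α, hα, rfl⟩ := hu
        exact h3 α hα
      | zero => rw [map_zero, map_zero]
      | add u v _ _ hu hv => rw [map_add, map_add, hu, hv]
      | smul r u _ hu => rw [map_smul, map_smul, hu]
    have hij : ∀ i j, S ⁅(h : L), B.v i⁆ (B.v j) = S (B.v i) ⁅(h : L), B.v j⁆ := by
      intro i j
      rw [B.lie_v, B.lie_v, LinearMap.map_smul₂, LinearMap.map_smulₛₗ, smul_eq_mul, smul_eq_mul,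
        hh (B.w j h) (B.v j) (B.v.ne_zero j) (B.lie_v j h)]
      by_cases h6 : S (B.v i) (B.v j) = 0
      · rw [h6, mul_zero, mul_zero]
      · rw [hort i j h6]
    intro u v
    rw [← B.v.sum_repr u, ← B.v.sum_repr v, lie_sum, lie_sum, LinearMap.map_sum₂, LinearMap.map_sum₂]
    refine Finset.sum_congr rfl fun i _ => ?_
    rw [map_sum, map_sum]
    refine Finset.sum_congr rfl fun j _ => ?_
    rw [lie_smul, lie_smul, LinearMap.map_smul₂, LinearMap.map_smul₂, LinearMap.map_smulₛₗ,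
      LinearMap.map_smulₛₗ, hij]

end lie

end CF

namespace MH

open Matrix

variable {n : Type*} [Fintype n] [DecidableEq n]

/-- The Gram matrix. -/
private def gm57 (S : (n → ℂ) →ₗ[ℂ] (n → ℂ) →ₗ⋆[ℂ] ℂ) : Matrix n n ℂ :=
  Matrix.of fun j i => S (Pi.single i 1) (Pi.single j 1)

private lemma gm_apply57 (S : (n → ℂ) →ₗ[ℂ] (n → ℂ) →ₗ⋆[ℂ] ℂ) (u v : n → ℂ) :
    S u v = star v ⬝ᵥ (gm57 S *ᵥ u) := by
  have hu : u = ∑ i, u i • (Pi.single i 1 : n → ℂ) := pi_eq_sum_univ' u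
  have hv : v = ∑ i, v i • (Pi.single i 1 : n → ℂ) := pi_eq_sum_univ' v
  conv_lhs => rw [hu, hv]
  rw [LinearMap.map_sum₂, dotProduct]
  simp only [mulVec, dotProduct, Finset.mul_sum]
  rw [Finset.sum_comm]
  refine Finset.sum_congr rfl fun i _ => ?_
  rw [map_sum]
  refine Finset.sum_congr rfl fun j _ => ?_
  rw [LinearMap.map_smul₂, LinearMap.map_smulₛₗ, smul_eq_mul, smul_eq_mul, gm57, of_apply,
    Pi.star_apply, Complex.star_def]
  ring

open scoped MatrixOrder ComplexOrder Matrix.Norms.L2Operator in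
private lemma chol57 {M : Matrix n n ℂ} (hM : M.PosDef) :
    ∃ B Bi : Matrix n n ℂ, B * Bi = 1 ∧ Bi * B = 1 ∧ M = Bᴴ * B := by
  obtain ⟨y, hy, h⟩ := CStarAlgebra.isStrictlyPositive_iff_eq_star_mul_self.mp hM.isStrictlyPositive
  obtain ⟨u, rfl⟩ := hy
  exact ⟨u, ((u⁻¹ : (Matrix n n ℂ)ˣ) : Matrix n n ℂ), u.mul_inv, u.inv_mul, h⟩

private lemma adj57 {S : (n → ℂ) →ₗ[ℂ] (n → ℂ) →ₗ⋆[ℂ] ℂ} (hM : (gm57 S)ᴴ = gm57 S) {X Y : Matrix n n ℂ}
    (h : ∀ u v, S (X *ᵥ u) v = S u (Y *ᵥ v)) : Xᴴ * gm57 S = gm57 S * Y := by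
  have h1 : gm57 S * X = Yᴴ * gm57 S := by
    ext i j
    have h2 := h (Pi.single j 1) (Pi.single i 1)
    rw [gm_apply57, gm_apply57, star_mulVec, mulVec_mulVec, ← dotProduct_mulVec, mulVec_mulVec] at h2
    simpa using h2
  have h3 := congrArg conjTranspose h1
  rw [conjTranspose_mul, conjTranspose_mul, conjTranspose_conjTranspose, hM] at h3
  exact h3

private lemma gram57 {B Bi X Y : Matrix n n ℂ} (h1 : B * Bi = 1) (hXY : Xᴴ * (Bᴴ * B) = Bᴴ * B * Y) :
    (cj B Bi X)ᴴ = cj B Bi Y := by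
  have h2 : Biᴴ * Bᴴ = 1 := by rw [← conjTranspose_mul, h1, conjTranspose_one]
  unfold cj
  rw [conjTranspose_mul, conjTranspose_mul]
  calc Biᴴ * (Xᴴ * Bᴴ) = Biᴴ * (Xᴴ * Bᴴ) * (B * Bi) := by rw [h1, mul_one]
    _ = Biᴴ * (Xᴴ * (Bᴴ * B)) * Bi := by simp only [mul_assoc]
    _ = Biᴴ * Bᴴ * (B * Y * Bi) := by rw [hXY]; simp only [mul_assoc]
    _ = B * Y * Bi := by rw [h2, one_mul]

section alg

attribute [local instance 100] LieRing.ofAssociativeRing

/-- The Lie algebra of operators. -/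
private def la57 (L : Submodule ℂ (Matrix n n ℂ)) (hbr : ∀ X ∈ L, ∀ Y ∈ L, X * Y - Y * X ∈ L) :
    LieSubalgebra ℂ (Module.End ℂ (n → ℂ)) where
  carrier := {T | LinearMap.toMatrix' T ∈ L}
  add_mem' := by
    intro x y hx hy
    change LinearMap.toMatrix' (x + y) ∈ L
    rw [map_add]
    exact L.add_mem hx hy
  zero_mem' := by
    change LinearMap.toMatrix' (0 : Module.End ℂ (n → ℂ)) ∈ L
    rw [map_zero]
    exact L.zero_mem
  smul_mem' := by
    intro c x hx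
    change LinearMap.toMatrix' (c • x) ∈ L
    rw [map_smul]
    exact L.smul_mem c hx
  lie_mem' := by
    intro x y hx hy
    change LinearMap.toMatrix' (x * y - y * x) ∈ L
    rw [map_sub, LinearMap.toMatrix'_mul, LinearMap.toMatrix'_mul]
    exact hbr _ hx _ hy

open scoped ComplexOrder in
private lemma pd57 {S : (n → ℂ) →ₗ[ℂ] (n → ℂ) →ₗ⋆[ℂ] ℂ} (hM : (gm57 S)ᴴ = gm57 S)
    (hpos : ∀ u, u ≠ 0 → ∃ r : ℝ, 0 < r ∧ S u u = (r : ℂ)) :
    ∃ B Bi : Matrix n n ℂ, B * Bi = 1 ∧ Bi * B = 1 ∧ gm57 S = Bᴴ * B := by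
  apply chol57
  refine Matrix.PosDef.of_dotProduct_mulVec_pos hM fun x hx => ?_
  obtain ⟨r, hr, hr2⟩ := hpos x hx
  rw [← gm_apply57, hr2]
  exact_mod_cast hr

/-- **The compact form theorem for matrices.** -/
theorem exists_herm [Nonempty n] (L : Submodule ℂ (Matrix n n ℂ)) (hbr : ∀ X ∈ L, ∀ Y ∈ L, X * Y - Y * X ∈ L)
    (hirr : ∀ W : Submodule ℂ (n → ℂ), (∀ X ∈ L, ∀ w ∈ W, X *ᵥ w ∈ W) → W = ⊥ ∨ W = ⊤)
    (htr : ∀ X ∈ L, X.trace = 0) {h : Matrix n n ℂ} (hh : h ∈ L) {E : ℝ → Matrix n n ℂ} {Λ : Finset ℝ}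
    (hE : SD h E Λ) :
    ∃ B Bi : Matrix n n ℂ, B * Bi = 1 ∧ Bi * B = 1 ∧ (cj B Bi h)ᴴ = cj B Bi h ∧
      ∀ X ∈ L, cj Bi B (cj B Bi X)ᴴ ∈ L := by
  classical
  set L' := la57 L hbr with hL'
  have hmem : ∀ X ∈ L, toLin' X ∈ L' := by
    intro X hX
    change LinearMap.toMatrix' (toLin' X) ∈ L
    rw [LinearMap.toMatrix'_toLin']
    exact hX
  have hirr1 : ∀ W : Submodule ℂ (n → ℂ), (∀ z ∈ L', ∀ w ∈ W, z w ∈ W) → W = ⊥ ∨ W = ⊤ := by
    intro W hW
    refine hirr W fun X hX w hw => ?_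
    have h1 := hW (toLin' X) (hmem X hX) w hw
    rwa [toLin'_apply] at h1
  have htr1 : ∀ z ∈ L', LinearMap.trace ℂ (n → ℂ) z = 0 := by
    intro z hz
    rw [LinearMap.trace_eq_matrix_trace ℂ (Pi.basisFun ℂ n), LinearMap.toMatrix_eq_toMatrix']
    exact htr _ hz
  have hk : IsKilling ℂ L' := UN.killing_tr hirr1 htr1
  obtain ⟨H, hH, hhH⟩ := Pool.Agent.Helper54.MT.exists_cartan_end (L := L') ⟨toLin' h, hmem h hh⟩
    (Pool.Agent.Helper54.MT.semisimple_of_diag hE.iSup_eq)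
  have hirr' : ∀ W : Submodule ℂ (n → ℂ), (∀ x : L', ∀ u ∈ W, ⁅x, u⁆ ∈ W) → W = ⊥ ∨ W = ⊤ :=
    fun W hW => hirr1 W fun z hz w hw => hW ⟨z, hz⟩ w hw
  have hfaith : ∀ x : L', (∀ u : n → ℂ, ⁅x, u⁆ = 0) → x = 0 := by
    intro x hx
    apply Subtype.ext
    exact LinearMap.ext fun u => hx u
  obtain ⟨S, θ, hherm, hpos, hadj, hself⟩ := CF.compact57 H hirr' hfaith
  have hM : (gm57 S)ᴴ = gm57 S := by
    ext i j
    rw [conjTranspose_apply, gm57, of_apply, of_apply, hherm]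
    exact star_star _
  obtain ⟨B, Bi, h1, h2, h3⟩ := pd57 hM hpos
  have hS : ∀ u v : n → ℂ, S (h *ᵥ u) v = S u (h *ᵥ v) := by
    refine hself ⟨⟨toLin' h, hmem h hh⟩, hhH⟩ ?_
    intro c v hv hcv
    replace hcv : h *ᵥ v = c • v := hcv
    have h4 : ∃ μ ∈ Λ, E μ *ᵥ v ≠ 0 := by
      by_contra hcon
      push Not at hcon
      apply hv
      have h5 : (∑ μ ∈ Λ, E μ) *ᵥ v = v := by rw [hE.sum, one_mulVec]
      rw [← h5, Matrix.sum_mulVec]
      exact Finset.sum_eq_zero hcon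
    obtain ⟨μ, -, h5⟩ := h4
    have h6 : E μ *ᵥ (h *ᵥ v) = (μ : ℂ) • (E μ *ᵥ v) := by
      rw [mulVec_mulVec, hE.mul_l, smul_mulVec]
    rw [hcv, mulVec_smul] at h6
    have h7 : c = μ := smul_left_injective ℂ h5 h6
    rw [h7, Complex.conj_ofReal]
  refine ⟨B, Bi, h1, h2, ?_, ?_⟩
  · apply gram57 h1
    rw [← h3]
    exact adj57 hM hS
  · intro X hX
    set Y := LinearMap.toMatrix' ((θ ⟨toLin' X, hmem X hX⟩ : L') : Module.End ℂ (n → ℂ)) with hY
    have h4 : (cj B Bi X)ᴴ = cj B Bi Y := by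
      apply gram57 h1
      rw [← h3]
      apply adj57 hM
      intro u v
      have h5 := hadj ⟨toLin' X, hmem X hX⟩ u v
      have h6 : ⁅(θ ⟨toLin' X, hmem X hX⟩ : L'), v⁆ = Y *ᵥ v := by
        rw [hY, ← toLin'_apply, toLin'_toMatrix']
        rfl
      rw [← h6, ← h5]
      rfl
    have h5 : cj Bi B (cj B Bi Y) = Y := by
      unfold cj
      calc Bi * (B * Y * Bi) * B = (Bi * B) * Y * (Bi * B) := by simp only [mul_assoc]
        _ = Y := by rw [h2, one_mul, mul_one]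
    rw [h4, h5]
    exact (θ ⟨toLin' X, hmem X hX⟩).2

end alg

end MH
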